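import Pool.Agent.ATZ.Defs

/-!
# Squad AT10: the theorem of Broué and Puig for the central sections (STAR block): definitions

Everything on top of squads ATZ (`Pool.Agent.PP.TB`), AT8, AT5.  `A = F G` with the conjugation
action of `G`, `A ^ P` the subalgebra of the `P`-invariant elements.  For an `ℓ`-element `u` and an
idempotent `j` of `F C(u)`, `tv M u j χ` is `χ(u j^)`, `j^` any lift of `j`.
-/

open scoped BigOperators

noncomputable section

namespace Pool.Agent.PP.T10

open Pool.Agent.Helper51_AWC Pool.Agent.Helper79_WRA Pool.Agent.PP Pool.Agent.PP.KF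
open Pool.Agent.PP.K9 Pool.Agent.PP.K9.H97 Pool.Agent.PP.H75 Pool.Agent.PP.T3 Pool.Agent.PP.T2
open Pool.Agent.PP.T5 Pool.Agent.PP.TB
open Pool.Agent.PP.T8 (rs pw fv rd Ip Rv)

attribute [local instance] Ideal.Quotient.field

section defs

variable {G : Type} [Group G]

/-- `i` is a primitive idempotent of the algebra of the `P`-invariant elements of the group ring. -/
structure Pm {F : Type} [Field F] (P : Subgroup G) (i : G → F) : Prop where
  id : mulF i i = i
  iv : ∀ v ∈ P, ∀ x, i (v * x * v⁻¹) = i x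
  nz : i ≠ 0
  pr : ∀ j : G → F, mulF j j = j → (∀ v ∈ P, ∀ x, j (v * x * v⁻¹) = j x) → mulF i j = j →
    mulF j i = j → j = 0 ∨ j = i

/-- `Q` is a subgroup of index `ℓ` of `P`, `u` an element of `P` not in `Q`, `a` is `Q`-invariant,
`i a = a = a i`, and the sum of the conjugates of `a` with `1, u, ..., u ^ (ℓ - 1)` is `i`. -/
structure Tq {F : Type} [Field F] (ℓ : ℕ) (P Q : Subgroup G) (u : G) (a i : G → F) : Prop where
  le : Q ≤ P
  ix : Q.relIndex P = ℓ
  mem : u ∈ P
  nm : u ∉ Q
  iv : ∀ v ∈ Q, ∀ x, a (v * x * v⁻¹) = a x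
  lm : mulF i a = a
  rm : mulF a i = a
  tr : ∑ k ∈ Finset.range ℓ, cj (u ^ k) a = i

variable (M : Ideal (integralClosure ℤ ℂ)) [M.IsMaximal]

/-- `i` is an idempotent over the local ring which commutes with `u`, and the restriction of its
reduction to `C(u)` is `j`. -/
structure Il (u : G) (j : G → FF M) (i : G → ℂ) : Prop where
  rm : ∀ g, i g ∈ RM M
  id : mulF i i = i
  iv : ∀ x, i (u * x * u⁻¹) = i x
  rd : rs (Cu u) (rd M i) = j

open Classical in
/-- the value `χ(u j^)`, `j^` any lift of the idempotent `j` of `F C(u)` -/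
def tv (u : G) (j : G → FF M) (χ : G → ℂ) : ℂ :=
  if h : ∃ i, Il M u j i then fv h.choose u χ else 0

/-- For all virtual characters `κ` of `P` the average of `h κ` over `P` is in the local ring. -/
def Cf (P : Subgroup G) (h : G → ℂ) : Prop :=
  ∀ κ ∈ ZI P, (Nat.card P : ℂ)⁻¹ * ∑ᶠ u : P, h u * κ u ∈ RM M

/-- For every `k`, `u ↦ β k u` is an equivariant family of central idempotents (perhaps `0`) of the
algebras `F C(u)`. -/
structure Ef {ι : Type} (β : ι → G → G → FF M) : Prop where
  ix : ∀ k u, Ix (Cu u) (β k u)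
  eq : ∀ k (g u : G), β k (g * u * g⁻¹) = cj g (β k u)

/-- the combination with the coefficients `c k` of the values of `χ` at `u i β k u` -/
def fi {ι : Type} (c : ι → ℂ) (β : ι → G → G → FF M) (i : G → FF M) (χ : G → ℂ) (u : G) : ℂ :=
  ∑ᶠ k : ι, c k * tv M u (mulF (rs (Cu u) i) (β k u)) χ

/-- the combination with the coefficients `c k` of the functions `s ↦ χ(u s β k u)` -/
def fu {ι : Type} (c : ι → ℂ) (β : ι → G → G → FF M) (χ : G → ℂ) (u s : G) : ℂ :=
  ∑ᶠ k : ι, c k * gv M (Cu u) (u * s) (β k u) χ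

/-- the class function with the value `fu u s` at `u s`, `u` the `ℓ`-part and `s` the regular part -/
def fg {ι : Type} (ℓ : ℕ) (c : ι → ℂ) (β : ι → G → G → FF M) (χ : G → ℂ) (g : G) : ℂ :=
  ∑ᶠ (u : G) (_ : Lp ℓ g u), fu M c β χ u (u⁻¹ * g)

/-- The conclusion of the coherence theorem for the family `β`. -/
def Hc {ι : Type} (ℓ : ℕ) (c : ι → ℂ) (β : ι → G → G → FF M) (χ : G → ℂ) : Prop :=
  ∀ P : Subgroup G, IsPGroup ℓ P → ∀ i : G → FF M, mulF i i = i →
    (∀ v ∈ P, ∀ x, i (v * x * v⁻¹) = i x) → Cf M P (fi M c β i χ)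

open Classical in
/-- the block of `C(u)` which is conjugate to the block `b z` of `C(z)`, if `z` and `u` are
conjugate; otherwise `0` -/
def sb {F : Type} [Zero F] (b : G → G → F) (z u : G) : G → F :=
  if h : ∃ q : G, q * z * q⁻¹ = u then fun x => b z (h.choose⁻¹ * x * h.choose) else 0

/-- the coefficient of the section of `z` in the function which belongs to the linear character
`nu` of `Z` -/
def cn {F : Type} (V Z : Subgroup G) (γ : G → F) (nu : Z →* ℂ) (z : Z) : ℂ :=
  ((Nat.card V : ℂ) / Nat.card Z) * cz V Z γ (z : G) * nu z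

/-- The local property: for every primitive idempotent `i` of `A ^ P` under `e` which does not
vanish on `C(P)` there is a conjugate of `V` which contains `P`, such that for `u ∈ P` in the conjugate of
`Z` the idempotent `br_u(i)` is under the conjugate of the local block, and for the other `u ∈ P` it
is orthogonal to all the blocks which are conjugate to local blocks. -/
def Lo (ℓ : ℕ) (e : G → FF M) (V Z : Subgroup G) (b : G → G → FF M) : Prop :=
  ∀ P : Subgroup G, IsPGroup ℓ P → ∀ i : G → FF M, Pm P i → mulF e i = i → br P i ≠ 0 →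
    ∃ g : G, P ≤ conjS g V ∧
      (∀ u ∈ P, u ∈ conjS g Z →
        mulF (rs (Cu u) i) (cj g (b (g⁻¹ * u * g))) = rs (Cu u) i) ∧
      ∀ u ∈ P, u ∉ conjS g Z → ∀ z ∈ Z, ∀ q : G, q * z * q⁻¹ = u →
        mulF (rs (Cu u) i) (cj q (b z)) = 0

end defs

end Pool.Agent.PP.T10
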