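import Pool.Agent.AT10.Defs

/-!
# Squad AT10, part 1: idempotents

`A = F G`, `G` acts by conjugation.  `rs C a` is the restriction of `a` to the subgroup `C`, `rd M i`
the reduction of `i : G → ℂ`, `Ip M V i`: `i` is an idempotent over the local ring which commutes
with `V`, `fv i u χ = χ(u i)`, `pw x n` the powers in the group ring, `cj g a` the conjugate of `a`.
Complete proofs in the docstrings; all rows are independent (a row may take the rows which it uses as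
hypotheses, also rows of T8 / AT8).  `rs (Cu u)` is multiplicative on the elements of `F G` which
commute with the `ℓ`-element `u` (`H75.br_mulF` for the group generated by `u`).
-/

open scoped BigOperators

noncomputable section

namespace Pool.Agent.PP.T10

open Pool.Agent.Helper51_AWC Pool.Agent.Helper79_WRA Pool.Agent.PP Pool.Agent.PP.KF
open Pool.Agent.PP.K9 Pool.Agent.PP.K9.H97 Pool.Agent.PP.H75 Pool.Agent.PP.T3 Pool.Agent.PP.T2
open Pool.Agent.PP.T5 Pool.Agent.PP.TB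
open Pool.Agent.PP.T8 (rs pw fv rd Ip Rv)

attribute [local instance] Ideal.Quotient.field

/-! ## 1. Lifts -/

/-- LF2: idempotents can be lifted under a given idempotent.

Proof.  As `T8.LftStmt` (`Helper27_AT8/LFT.lean`, lemmas `gen`, `cop`, `ev_idem`, `splits`,
`poly_inv`).  If `i = 1` this is LFT.  Let `i ≠ 1`, `x'` a lift of `x` with values in `RM M`,
vanishing outside `C`, invariant under `V` (as in LFT), `x'' = i x' i`; its reduction is
`(rd i) x (rd i) = x`.  With `L` the matrix of `y ↦ x'' y` on `ℂ ^ G`, and `P`, `Q`, `A` as in LFT,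
`i₁ = (A P)(x'')` is an idempotent over `x` which vanishes outside `C` and is invariant under `V`.
`x'' (1 - i) = 0` and `1 - i ≠ 0`, so `0` is an eigenvalue of `L` and `P(0) = 0`, so
`i₁ = x'' h(x'') = h(x'') x''` for a polynomial `h`, so `i i₁ = i₁ = i₁ i`. -/
def Lf2Stmt : Prop := ∀ (M : Ideal (integralClosure ℤ ℂ)) [M.IsMaximal] (G : Type) [Group G]
  [Finite G] (V C : Subgroup G) (i : G → ℂ), Ip M V i → (∀ g, g ∉ C → i g = 0) →
  ∀ x : G → FF M, mulF x x = x → (∀ g, g ∉ C → x g = 0) →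
  (∀ v ∈ V, ∀ g, x (v * g * v⁻¹) = x g) → mulF (rd M i) x = x → mulF x (rd M i) = x →
  ∃ i₁ : G → ℂ, Ip M V i₁ ∧ (∀ g, g ∉ C → i₁ g = 0) ∧ rd M i₁ = x ∧ mulF i i₁ = i₁ ∧
    mulF i₁ i = i₁

/-- TVS: the values `tv` are well defined.

Proof.  (i) `T8.LftStmt` with `V = ⊥`, `C = C(u)`; an element supported on `C(u)` commutes with `u`,
and `rs (Cu u) (rd M i) = rd M i = j`.  (ii) Let `i`, `i'` be two lifts (`Il M u j`).  `j` is supported
on `C(u)` and it is an idempotent (`rs (Cu u)` is multiplicative on the elements which commute with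
`u`), so by (i) there is a lift `j'` supported on `C(u)`.  `T8.SmiStmt` for `i`, `j'` and for `i'`, `j'`:
`fv i u th = fv j' u th = fv i' u th`.  (iii) `Il M u 0 0` and (ii). -/
def TvsStmt : Prop := ∀ (ℓ : ℕ) [Fact ℓ.Prime] (M : Ideal (integralClosure ℤ ℂ)) [M.IsMaximal],
  (ℓ : integralClosure ℤ ℂ) ∈ M → ∀ (G : Type) [Group G] [Finite G] (u : G), El ℓ u →
  (∀ j : G → FF M, mulF j j = j → (∀ g, g ∉ Cu u → j g = 0) →
    ∃ i, Il M u j i ∧ ∀ g, g ∉ Cu u → i g = 0) ∧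
  (∀ (j : G → FF M) (i : G → ℂ), Il M u j i → ∀ th : G → ℂ, (∀ x y, th (y * x * y⁻¹) = th x) →
    tv M u j th = fv i u th) ∧
  ∀ th : G → ℂ, (∀ x y, th (y * x * y⁻¹) = th x) → tv M u 0 th = 0

/-- TVA: additivity.

Proof.  `j = j₁ + j₂` is an idempotent supported on `C(u)`; let `i` be a lift supported on `C(u)`
(TVS (i)).  LF2 (`V = ⊥`, `C = C(u)`, `x = j₁`; `j j₁ = j₁ = j₁ j`): `i₁` with `i i₁ = i₁ = i₁ i`.
`i₂ = i - i₁` is an idempotent with reduction `j₂`.  All are supported on `C(u)`, so they commute with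
`u`.  `fv` is additive in the first argument; TVS (ii). -/
def TvaStmt : Prop := ∀ (ℓ : ℕ) [Fact ℓ.Prime] (M : Ideal (integralClosure ℤ ℂ)) [M.IsMaximal],
  (ℓ : integralClosure ℤ ℂ) ∈ M → ∀ (G : Type) [Group G] [Finite G] (u : G), El ℓ u →
  ∀ j₁ j₂ : G → FF M, mulF j₁ j₁ = j₁ → mulF j₂ j₂ = j₂ → mulF j₁ j₂ = 0 → mulF j₂ j₁ = 0 →
  (∀ g, g ∉ Cu u → j₁ g = 0) → (∀ g, g ∉ Cu u → j₂ g = 0) →
  ∀ th : G → ℂ, (∀ x y, th (y * x * y⁻¹) = th x) →
    tv M u (j₁ + j₂) th = tv M u j₁ th + tv M u j₂ th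

/-- TVC: conjugation.

Proof.  If `i` is a lift of `j` (TVS (i)) then `cj g i` is a lift of `cj g j` for `g u g⁻¹`
(`C(g u g⁻¹) = g C(u) g⁻¹`), and `fv (cj g i) (g u g⁻¹) th = ∑_x i(g⁻¹ x g) th(g u g⁻¹ x) =
∑_y i(y) th(g u y g⁻¹) = fv i u th`.  TVS (ii) twice. -/
def TvcStmt : Prop := ∀ (ℓ : ℕ) [Fact ℓ.Prime] (M : Ideal (integralClosure ℤ ℂ)) [M.IsMaximal],
  (ℓ : integralClosure ℤ ℂ) ∈ M → ∀ (G : Type) [Group G] [Finite G] (u g : G), El ℓ u →
  ∀ j : G → FF M, mulF j j = j → (∀ x, x ∉ Cu u → j x = 0) →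
  ∀ th : G → ℂ, (∀ x y, th (y * x * y⁻¹) = th x) →
    tv M (g * u * g⁻¹) (cj g j) th = tv M u j th

/-- FCZ: `u ↦ χ(u i)` is a virtual character of `P`.

Proof.  Let `ρ` afford `χ`.  `p = ∑ i(g) ρ(g)` is an idempotent matrix which commutes with the `ρ(u)`,
`u ∈ P`, and `fv i u χ = tr(ρ(u) p)`.  For `κ ∈ Irr P`, afforded by `σ`, the matrix
`q = |P|⁻¹ ∑_u ρ(u) ⊗ σ(u⁻¹)ᵀ` is an idempotent which commutes with `p ⊗ 1`, so
`|P|⁻¹ ∑_u fv i u χ κ(u⁻¹) = tr(q (p ⊗ 1))` is the trace of an idempotent matrix, a natural number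
(compare `T8.FchStmt`, `Helper53_AT8/FCH.lean`).  `u ↦ fv i u χ` is a class function of `P` (`i`
commutes with `P`), so it is the combination of the `κ ∈ Irr P` with these coefficients.  (Or: it is
the character of the representation of `P` on the image of `p`, and such characters are in `ZI`,
`Helper32_AT5/ZIM.lean`.) -/
def FczStmt : Prop := ∀ (M : Ideal (integralClosure ℤ ℂ)) [M.IsMaximal] (G : Type) [Group G]
  [Finite G] (P : Subgroup G) (i : G → ℂ), Ip M P i → ∀ χ ∈ Irr G,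
    (fun u : P => fv i (u : G) χ) ∈ ZI P

/-! ## 2. Primitive idempotents -/

/-- PDC: decomposition into primitive idempotents.

Proof.  Strong induction on the dimension of `i A` (the range of `y ↦ i y` on the functions
`G → F`).  `i = 0`: `n = 0`.  If `i` is primitive: `n = 1`.  Otherwise there is an idempotent
`P`-invariant `j ≠ 0, i` with `i j = j = j i`; `i A = j A ⊕ (i - j) A`, both summands are not `0`
(they contain `j` and `i - j`), and `i - j` is an idempotent; take the decompositions of `j` and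
`i - j` together (`k a = j (k a) = (k a) j` for the parts of `j`, and similarly for `i - j`, as
`k a = (∑ k b) k a`, so the parts are orthogonal). -/
def PdcStmt : Prop := ∀ (F : Type) [Field F] (G : Type) [Group G] [Finite G] (P : Subgroup G)
  (i : G → F), mulF i i = i → (∀ v ∈ P, ∀ x, i (v * x * v⁻¹) = i x) →
  ∃ (n : ℕ) (k : Fin n → G → F), (∀ a, Pm P (k a)) ∧
    (∀ a b, a ≠ b → mulF (k a) (k b) = 0) ∧ ∑ a, k a = i

/-- IDL: the algebra `i A ^ P i` is local for a primitive idempotent `i` of `A ^ P`.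

Proof.  `T8.IdpStmt`: `pw x n` is an idempotent for some `n > 0`; it is `P`-invariant and
`i (pw x n) = pw x n = (pw x n) i`, so it is `0` or `i`.  In the second case
`y = i (pw x (n - 1)) i` satisfies `x y = i = y x` (powers of `x` commute). -/
def IdlStmt : Prop := ∀ (ℓ : ℕ) (F : Type) [Field F], GoodF ℓ F → ∀ (G : Type) [Group G] [Finite G]
  (P : Subgroup G) (i : G → F), Pm P i → ∀ x : G → F, (∀ v ∈ P, ∀ g, x (v * g * v⁻¹) = x g) →
  mulF i x = x → mulF x i = x → (∃ n : ℕ, 0 < n ∧ pw x n = 0) ∨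
    ∃ y : G → F, (∀ v ∈ P, ∀ g, y (v * g * v⁻¹) = y g) ∧ mulF i y = y ∧ mulF y i = y ∧
      mulF x y = i ∧ mulF y x = i

/-- RTR: an element of `A ^ P` which vanishes on `C(P)` is a sum of traces from subgroups of index
`ℓ`.

Proof.  For `g ∈ G` not in `C(P)` the group `P ∩ C(g)` is a proper subgroup of the `ℓ`-group `P`, so
it is contained in a subgroup of index `ℓ` of `P`, which is normal in `P`.  Choose such a subgroup
`Q(g)` depending only on the `P`-orbit of `g` (`P ∩ C(v g v⁻¹) = v (P ∩ C(g)) v⁻¹ ≤ Q(g)`).  The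
subgroups `Q` of index `ℓ` are finite in number: `Q k`, `k : Fin m`; `u k ∈ P` not in `Q k`; the powers
`1, u, ..., u ^ (ℓ-1)` represent `P/Q`.  Let `Ω_k` be the set of the `g` with `Q(g) = Q k`, a union of
`P`-orbits.  `u = u k` permutes the `Q k`-orbits on `Ω_k`; if `u ^ j g u ^ (-j) = v g v⁻¹` with
`v ∈ Q k` then `v⁻¹ u ^ j ∈ P ∩ C(g) ≤ Q k`, so `ℓ ∣ j`: the `ℓ` orbits of the
`u ^ j g u ^ (-j)`, `j < ℓ`, are different.  Choose one `Q k`-orbit in each `P`-orbit of `Ω_k` and let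
`a k` be `x` on the chosen orbits and `0` elsewhere.  For `g ∈ Ω_k` exactly one of the numbers
`a k (u ^ (-j) g u ^ j)`, `j < ℓ`, comes from a chosen orbit, and it is `x(g)` (`x` is
`P`-invariant).  So `∑_j cj (u ^ j) (a k)` is `x` on `Ω_k` and `0` elsewhere; the sum over `k` is
`x`. -/
def RtrStmt : Prop := ∀ (ℓ : ℕ) [Fact ℓ.Prime] (F : Type) [Field F] (G : Type) [Group G] [Finite G]
  (P : Subgroup G), IsPGroup ℓ P → ∀ x : G → F, (∀ v ∈ P, ∀ g, x (v * g * v⁻¹) = x g) →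
  (∀ g ∈ Subgroup.centralizer (P : Set G), x g = 0) →
  ∃ (m : ℕ) (Q : Fin m → Subgroup G) (u : Fin m → G) (a : Fin m → G → F),
    (∀ k, Q k ≤ P ∧ (Q k).relIndex P = ℓ ∧ u k ∈ P ∧ u k ∉ Q k ∧
      ∀ v ∈ Q k, ∀ g, a k (v * g * v⁻¹) = a k g) ∧
    x = ∑ k, ∑ j ∈ Finset.range ℓ, cj (u k ^ j) (a k)

/-- ROS: a primitive idempotent of `A ^ P` which vanishes on `C(P)` is a trace.

Proof.  RTR for `x = i`: `i = ∑_k X'_k`, `X'_k = ∑_j cj (u k ^ j) (a k)`.  The `X'_k` are `P`-invariant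
(`Q k` is normal in `P`, of index `ℓ`, and `cj (u k ^ ℓ) (a k) = a k` as `u k ^ ℓ ∈ Q k`).
`i = i i i = ∑_k X_k`, `X_k = i X'_k i = ∑_j cj (u k ^ j) (i (a k) i)`, `X_k ∈ B = i A ^ P i`.
By IDL every element of `B` is nilpotent or invertible in `B` (with the unit `i`).  If `x, y ∈ B` and
`x + y` is invertible, with inverse `w`, then `x` or `y` is invertible: if `w x` is invertible then
`x` is (an element with a left inverse is not nilpotent unless `i = 0`: if `w' x = i` and `x` were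
nilpotent, `x ^ n = 0`, then `i = w' ^ n x ^ n = 0`); otherwise `w x` is nilpotent and
`w y = i - w x` is invertible.  So by induction some `X_k` is invertible, `X_k w = i`, `w ∈ B`.
`a = i (a k) i w`: since `w` is `P`-invariant, `∑_j cj (u k ^ j) a = X_k w = i`. -/
def RosStmt : Prop := ∀ (ℓ : ℕ) [Fact ℓ.Prime] (F : Type) [Field F], GoodF ℓ F → ∀ (G : Type)
  [Group G] [Finite G] (P : Subgroup G), IsPGroup ℓ P → ∀ i : G → F, Pm P i → br P i = 0 →
    ∃ (Q : Subgroup G) (u : G) (a : G → F), Tq ℓ P Q u a i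

/-- GRN: Green's theorem with the polynomial `T ^ q - T`.

Proof.  `Q` is normal in `P` (index `ℓ`).  Let `α = cj u`, an automorphism of `A` which preserves
`A ^ Q`, and `α ^ ℓ` is the identity on `A ^ Q` (`u ^ ℓ ∈ Q`); `α(i) = i`.  `B = i A ^ Q i`, with the
unit `i`.  `x = - ∑_{k < ℓ} k α ^ k(a) ∈ B`: `α(x) = - ∑_k k α ^ (k+1)(a) = - ∑_k (k - 1) α ^ k(a) =
x + i` (`ℓ = 0` in `F`).  The values of `x` lie in a finite subfield of `F` (`GoodF.tors`, see
`Helper25_AT8/IDP.lean`), so `pw x (ℓ ^ n) = pw x (ℓ ^ (n + m))` for some `n ≥ 0`, `m > 0`; let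
`y = pw x (ℓ ^ n)` (for `n = 0`: `y = x`; `y ∈ B`), `q = ℓ ^ m`: `y ^ q = y`.  `α(y) =
(x + i) ^ (ℓ ^ n) = x ^ (ℓ ^ n) + i = y + i` (`x i = i x`, characteristic `ℓ`).  For `β ∈ F` with
`β ^ q = β` let `w = y - β i`; `w ^ q = y ^ q - β ^ q i = w`.  `j_β = i - w ^ (q-1)` (power in `B`):
`w ^ (2 q - 2) = w ^ (q - 1)` (`q ≥ 2`), so `j_β` is an idempotent of `B`, and `w j_β = 0`, i.e.
`y j_β = β j_β = j_β y`; so `j_β j_γ = 0` for `β ≠ γ` (`β j_β j_γ = y j_β j_γ = γ j_β j_γ`).  Not all the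
`j_β` are `0`: otherwise all `y - β i`, `β ^ q = β`, are invertible in `B`, but their product is
`y ^ q - y = 0` (`T ^ q - T = ∏ (T - β)` over the `q` roots `β` in the algebraically closed field
`F`).  `α(j_β) = i - (y + i - β i) ^ (q-1) = j_(β-1)`.  Let `j_β ≠ 0`, `j = j_β`: the `ℓ` idempotents
`α ^ k(j) = j_(β-k)`, `k < ℓ`, are orthogonal (`β - k` are different; `(β - k) ^ q = β - k`), and
their sum `J` is an idempotent of `B` invariant under `α` (`j_(β-ℓ) = j_β`), so it is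
`P`-invariant (`P` is generated by `Q` and `u`), `J ≠ 0` as `J j = j`.  So `J = i` (`Pm.pr`). -/
def GrnStmt : Prop := ∀ (ℓ : ℕ) [Fact ℓ.Prime] (F : Type) [Field F], GoodF ℓ F → ∀ (G : Type)
  [Group G] [Finite G] (P : Subgroup G), IsPGroup ℓ P → ∀ i : G → F, Pm P i →
  ∀ (Q : Subgroup G) (u : G) (a : G → F), Tq ℓ P Q u a i →
    ∃ j : G → F, Tq ℓ P Q u j i ∧ mulF j j = j ∧ ∀ k m : ℕ, k < ℓ → m < ℓ → k ≠ m →
      mulF (cj (u ^ k) j) (cj (u ^ m) j) = 0

/-! ## 3. The coherence theorem -/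

/-- FIA: additivity in `i`.

Proof.  `rs (Cu u)` is additive, and multiplicative on the elements which commute with `u`, so
`rs i₁`, `rs i₂` are orthogonal idempotents of `F C(u)`; multiplied with the central idempotent
`β k u` of `F C(u)` they are orthogonal idempotents supported on `C(u)`.  TVA for every `k`, and
`finsum` over a finite type is additive. -/
def FiaStmt : Prop := ∀ (ℓ : ℕ) [Fact ℓ.Prime] (M : Ideal (integralClosure ℤ ℂ)) [M.IsMaximal],
  (ℓ : integralClosure ℤ ℂ) ∈ M → ∀ (G : Type) [Group G] [Finite G] (ι : Type) [Finite ι]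
  (c : ι → ℂ) (β : ι → G → G → FF M), Ef M β → ∀ χ ∈ Irr G, ∀ u : G, El ℓ u →
  ∀ i₁ i₂ : G → FF M, mulF i₁ i₁ = i₁ → mulF i₂ i₂ = i₂ → mulF i₁ i₂ = 0 → mulF i₂ i₁ = 0 →
  (∀ x, i₁ (u * x * u⁻¹) = i₁ x) → (∀ x, i₂ (u * x * u⁻¹) = i₂ x) →
    fi M c β (i₁ + i₂) χ u = fi M c β i₁ χ u + fi M c β i₂ χ u

/-- FIC: conjugation.

Proof.  `rs (Cu (g u g⁻¹)) (cj g i) = cj g (rs (Cu u) i)`, `β k (g u g⁻¹) = cj g (β k u)`, `cj g` is
multiplicative (`cj_mulF`), and `(rs i) (β k u)` is an idempotent supported on `C(u)` (`β k u` is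
central in `F C(u)`); TVC. -/
def FicStmt : Prop := ∀ (ℓ : ℕ) [Fact ℓ.Prime] (M : Ideal (integralClosure ℤ ℂ)) [M.IsMaximal],
  (ℓ : integralClosure ℤ ℂ) ∈ M → ∀ (G : Type) [Group G] [Finite G] (ι : Type) [Finite ι]
  (c : ι → ℂ) (β : ι → G → G → FF M), Ef M β → ∀ χ ∈ Irr G, ∀ u g : G, El ℓ u →
  ∀ i : G → FF M, mulF i i = i → (∀ x, i (u * x * u⁻¹) = i x) →
    fi M c β (cj g i) χ (g * u * g⁻¹) = fi M c β i χ u

/-- GRI: the induction step of Green's theorem.

Proof.  Let `κ ∈ ZI P`.  For `v ∈ P` not in `Q`: `Q v` generates `P/Q`, so `v` and `u` generate the same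
group modulo `Q`, and `i = ∑_{k < ℓ} cj (v ^ k) j` (the cosets `u ^ k Q` and `v ^ k Q` are the same
set, `j` is `Q`-invariant).  For `g ∈ C(v)`: `i(g) = ∑_k j(v ^ (-k) g v ^ k) = ℓ j(g) = 0`, so
`rs (Cu v) i = 0` and `fi i v = 0` (TVS (iii), `mulF 0 _ = 0`).  For `v ∈ Q`, the `cj (u ^ k) j` are
orthogonal idempotents invariant under `Q` (normal in `P`), so by FIA (iterated; `fi 0 v = 0`) and FIC
`fi i v = ∑_{k < ℓ} fi (cj (u ^ k) j) v = ∑_k fi j (u ^ (-k) v u ^ k)`.  Since `κ(u ^ (-k) v u ^ k) =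
κ(v)` (elements of `ZI P` are class functions) and `v ↦ u ^ (-k) v u ^ k` is a bijection of `Q`,
`∑_{v ∈ P} fi i v κ(v) = ℓ ∑_{v ∈ Q} fi j v κ(v)`, and `|P| = ℓ |Q|`; the restriction of `κ` to `Q` is
in `ZI Q` (restrictions of irreducible characters are characters, `Helper32_AT5/ZIM.lean`). -/
def GriStmt : Prop := ∀ (ℓ : ℕ) [Fact ℓ.Prime] (M : Ideal (integralClosure ℤ ℂ)) [M.IsMaximal],
  (ℓ : integralClosure ℤ ℂ) ∈ M → ∀ (G : Type) [Group G] [Finite G] (ι : Type) [Finite ι]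
  (c : ι → ℂ) (β : ι → G → G → FF M), Ef M β → ∀ χ ∈ Irr G,
  ∀ (P Q : Subgroup G) (u : G) (j i : G → FF M), IsPGroup ℓ P →
  (∀ v ∈ P, ∀ x, i (v * x * v⁻¹) = i x) → Tq ℓ P Q u j i → mulF j j = j →
  (∀ k m : ℕ, k < ℓ → m < ℓ → k ≠ m → mulF (cj (u ^ k) j) (cj (u ^ m) j) = 0) →
  Cf M Q (fi M c β j χ) → Cf M P (fi M c β i χ)

/-- CHT: the coherence theorem: it is enough to consider the primitive idempotents which do not
vanish on `C(P)`.

Proof.  Strong induction on `|P|`.  Let `i` be a `P`-invariant idempotent, `i = ∑_a k a` as in PDC.  By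
FIA (iterated) `fi i = ∑_a fi (k a)` on `P`, so it is enough to prove `Cf` for `k a`
(`Cf` is closed under sums).  If `br P (k a) ≠ 0` this is the hypothesis.  Otherwise ROS, GRN:
`Tq ℓ P Q u j (k a)`, `|Q| < |P|`, `Q` is an `ℓ`-group, `j` is a `Q`-invariant idempotent, so
`Cf M Q (fi j)` by induction, and GRI. -/
def ChtStmt : Prop := ∀ (ℓ : ℕ) [Fact ℓ.Prime] (M : Ideal (integralClosure ℤ ℂ)) [M.IsMaximal],
  (ℓ : integralClosure ℤ ℂ) ∈ M → ∀ (G : Type) [Group G] [Finite G] (ι : Type) [Finite ι]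
  (c : ι → ℂ) (β : ι → G → G → FF M), Ef M β → ∀ χ ∈ Irr G,
  (∀ P : Subgroup G, IsPGroup ℓ P → ∀ i : G → FF M, Pm P i → br P i ≠ 0 →
    Cf M P (fi M c β i χ)) → Hc M ℓ c β χ

end Pool.Agent.PP.T10
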