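import Pool.Agent.AT10.Stmts1
import Pool.Agent.ATZ.Stmts1

/-!
# Squad AT10, part 2: from the coherence theorem to STAR

Complete proofs in the docstrings; all rows are independent.  `fu M c β χ u s` is
`∑_k c k χ(u s β k u)`, `fg M ℓ c β χ g` its value at `g = u s`, `u` the `ℓ`-part of `g`.
-/

open scoped BigOperators

noncomputable section

namespace Pool.Agent.PP.T10

open Pool.Agent.Helper51_AWC Pool.Agent.Helper79_WRA Pool.Agent.PP Pool.Agent.PP.KF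
open Pool.Agent.PP.K9 Pool.Agent.PP.K9.H97 Pool.Agent.PP.H75 Pool.Agent.PP.T3 Pool.Agent.PP.T2
open Pool.Agent.PP.T5 Pool.Agent.PP.TB
open Pool.Agent.PP.T8 (rs pw fv rd Ip Rv)

attribute [local instance] Ideal.Quotient.field

/-! ## 4. Regular elements and the theorem of Frobenius -/

/-- SPS: from idempotents to regular elements.

Proof.  Let `m` be the order of `s`, prime to `ℓ`, a unit of `RM M`.  For an `m`-th root of unity `ζ`
let `e_ζ = m⁻¹ ∑_{k < m} ζ ^ (-k) s ^ k`, in the group ring over `RM M` of `⟨s⟩`: orthogonal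
idempotents, `Ip M P e_ζ` (`s` commutes with `P`), `s = ∑ ζ e_ζ`.  For `u ∈ P` let `b` be the extension
by zero of the lift `eh M (β k u)`, a central idempotent of the group ring of `C(u)` (IdmStmt);
`e_ζ b` is an idempotent which commutes with `u`, and
`rs (Cu u) (rd (e_ζ b)) = (rs (Cu u) (rd e_ζ)) (β k u)`, so (TVS (ii))
`tv M u (mulF (rs (Cu u) (rd e_ζ)) (β k u)) χ = fv (e_ζ b) u χ`, and
`∑_ζ ζ fv (e_ζ b) u χ = fv (s b) u χ = ∑_t b(t) χ(u s t) = gv M (Cu u) (u s) (β k u) χ`.  So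
`fu M c β χ u s = ∑_ζ ζ fi M c β (rd e_ζ) χ u` on `P`.  In the same way `ψ(u s) = ∑_ζ ζ fv e_ζ u ψ`, and
`u ↦ fv e_ζ u ψ` is in `ZI P` (FCZ).  For `κ ∈ ZI P` the average of
`fu M c β χ u s conj (ψ(u s)) κ(u)` is the sum over `ζ`, `η` of `ζ conj η` times the average of
`fi (rd e_ζ) u` and the virtual character `conj (fv e_η u ψ) κ(u)` (`T5.ZimStmt`), in `RM M` by
the hypothesis. -/
def SpsStmt : Prop := ∀ (ℓ : ℕ) [Fact ℓ.Prime] (M : Ideal (integralClosure ℤ ℂ)) [M.IsMaximal],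
  (ℓ : integralClosure ℤ ℂ) ∈ M → ∀ (G : Type) [Group G] [Finite G] (ι : Type) [Finite ι]
  (c : ι → ℂ) (β : ι → G → G → FF M), Ef M β → ∀ χ ∈ Irr G, Hc M ℓ c β χ → ∀ ψ ∈ Irr G,
  ∀ P : Subgroup G, IsPGroup ℓ P → ∀ s ∈ Subgroup.centralizer (P : Set G), Reg ℓ s →
    Cf M P (fun u => fu M c β χ u s * starRingEnd ℂ (ψ (u * s)))

/-- FRG: averages over the `ℓ`-elements.

Proof.  Let `E` be the set of the `ℓ`-elements of `C`, `π(u) = #{x P ∈ C/P | u x P = x P}`.  For `u ∈ E`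
`π(u) = |C : P|` modulo `ℓ` (the orbits of `⟨u⟩` on `C/P` which are not fixed points have length
divisible by `ℓ`), prime to `ℓ`.  `π` is the permutation character of `C` on `C/P`, so
`π ^ n ∈ ZI C` for all `n` (`T5.ZimStmt`; `π ∈ ZI C`: the character of a representation).  Let
`ℓ ^ A` be the order of `P` and `m > 0` a multiple of `ℓ ^ A - ℓ ^ (A-1)` (for `A = 0` take
`m = 1`): `π(u) ^ m = 1` modulo `ℓ ^ A` for `u ∈ E`.  (i) `∑_{u ∈ E} h(u) π(u) ^ m =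
∑_{u ∈ E} h(u) π(u) ^ (m-1) |P|⁻¹ #{x ∈ C | x⁻¹ u x ∈ P} = |P|⁻¹ ∑_{x ∈ C} ∑_{v ∈ P}
h(x v x⁻¹) π(x v x⁻¹) ^ (m-1) = (|C|/|P|) ∑_{v ∈ P} h(v) π(v) ^ (m-1)`, so
`|C|⁻¹ ∑_{u ∈ E} h(u) π(u) ^ m = |P|⁻¹ ∑_{v ∈ P} h(v) π(v) ^ (m-1) ∈ RM M` (hypothesis for
`κ = π ^ (m-1)`).  (ii) `|C|⁻¹ ∑_{u ∈ E} h(u) (π(u) ^ m - 1)` is in `RM M`, since
`(π(u) ^ m - 1)/|P|` is an integer, `h(u) ∈ RM M` and `|P|/|C| ∈ RM M` (`|C : P|` is prime to
`ℓ`). -/
def FrgStmt : Prop := ∀ (ℓ : ℕ) [Fact ℓ.Prime] (M : Ideal (integralClosure ℤ ℂ)) [M.IsMaximal],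
  (ℓ : integralClosure ℤ ℂ) ∈ M → ∀ (C : Type) [Group C] [Finite C] (P : Sylow ℓ C) (h : C → ℂ),
  (∀ x y, h (y * x * y⁻¹) = h x) → (∀ x, h x ∈ RM M) →
  (∀ κ ∈ ZI C, (Nat.card P : ℂ)⁻¹ * ∑ᶠ u : P, h (u : C) * κ (u : C) ∈ RM M) →
    (Nat.card C : ℂ)⁻¹ * ∑ᶠ (u : C) (_ : El ℓ u), h u ∈ RM M

/-- FRB: the inner product of the function `fg` and `ψ`.

Proof.  The pairs `(u, s)`, `u` an `ℓ`-element, `s` regular, `u s = s u`, correspond to the elements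
`g = u s` of `G` (`Lp ℓ g u`), and `fg M ℓ c β χ (u s) = fu M c β χ u s`.  So the inner product is
`|G|⁻¹ ∑_s ∑_{u ∈ C(s) ℓ-element} h_s(u)`, `h_s(u) = fu M c β χ u s conj (ψ(u s))`, `s` over the regular
elements.  For given `s` let `C = C(s)`; `h_s` is a class function on `C` (`fu (x u x⁻¹) (x s x⁻¹) =
fu u s`: `β k (x u x⁻¹) = cj x (β k u)`, and `gv M (x C(u) x⁻¹) (x g x⁻¹) (cj x b) χ =
gv M (Cu u) g b χ`), with values in `RM M` (`IdmStmt`: the coefficients of the lifts are in `RM M`;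
values of characters are algebraic integers).  FRG for `C` and a Sylow subgroup `P`: the hypothesis
holds by SPS (the image of `P` in `G` is an `ℓ`-group which commutes with `s`; the restriction of
`κ ∈ ZI C` to `P` is in `ZI P`).  So `x_s = |C(s)|⁻¹ ∑_u h_s(u)` is in `RM M`, and `x_s` depends only on
the class of `s`, which has `|G|/|C(s)|` elements: `|G|⁻¹ ∑_s |C(s)| x_s` is the sum of `x_s` over
representatives of the regular classes. -/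
def FrbStmt : Prop := ∀ (ℓ : ℕ) [Fact ℓ.Prime] (M : Ideal (integralClosure ℤ ℂ)) [M.IsMaximal],
  (ℓ : integralClosure ℤ ℂ) ∈ M → ∀ (G : Type) [Group G] [Finite G] (ι : Type) [Finite ι]
  (c : ι → ℂ) (β : ι → G → G → FF M), Ef M β → (∀ k, c k ∈ RM M) → ∀ χ ∈ Irr G, Hc M ℓ c β χ →
  ∀ ψ ∈ Irr G, (Nat.card G : ℂ)⁻¹ * ∑ᶠ g : G, fg M ℓ c β χ g * starRingEnd ℂ (ψ g) ∈ RM M

/-! ## 5. The sections of the central subgroup -/

/-- BLO: in the inner product of a section the block may be omitted in one factor.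

Proof.  Let `C = C(u)`, `k = kr M C b`, `g(s) = gv M C (w s) b χ`.  By `T5.KerStmt`, for regular
`s ∈ C`: `g(s) = |C|⁻¹ ∑_c k(s, c) χ(w c)` and `gv M C (w s) b ψ = |C|⁻¹ ∑_c k(s, c) ψ(w c)`, `c` over the
regular elements of `C`.  `conj k(s, c) = k(c, s)`, and `∑_c k(s, c) k(c, s') = |C| k(s, s')`, `c` over the
regular elements: `k(s, c) = ∑_{κ ∈ b} κ(s) conj κ(c)` vanishes for singular `c` (`K9.WboStmt` for
`s⁻¹`), so the sum may be taken over all `c ∈ C`, and the first orthogonality relation.  So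
`∑_s g(s) conj (gv M C (w s) b ψ) = |C|⁻¹ ∑_{s, c} g(s) k(c, s) conj ψ(w c) =
∑_c conj ψ(w c) |C|⁻¹ ∑_s k(c, s) g(s)`, and `|C|⁻¹ ∑_s k(c, s) g(s) = g(c)`. -/
def BloStmt : Prop := ∀ (ℓ : ℕ) [Fact ℓ.Prime] (M : Ideal (integralClosure ℤ ℂ)) [M.IsMaximal],
  (ℓ : integralClosure ℤ ℂ) ∈ M → ∀ (G : Type) [Group G] [Finite G] (u w : G),
  (∀ c ∈ Cu u, w * c = c * w) → ∀ b : G → FF M, Ix (Cu u) b → ∀ χ ∈ Irr G, ∀ ψ ∈ Irr G,
    (Nat.card (Cu u) : ℂ)⁻¹ * ∑ᶠ (s : G) (_ : s ∈ Cu u ∧ Reg ℓ s),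
      gv M (Cu u) (w * s) b χ * starRingEnd ℂ (ψ (w * s)) = mm M ℓ (Cu u) w b χ ψ

/-- SBE: the family `sb b`.

Proof.  `b z` is a block of `C(z)` (`Lb.bx`), so it is invariant under `C(z)` (`Ix.inv`).  If
`q z q⁻¹ = u` then `sb b z u = cj q (b z)` for this `q` (two such `q` differ by an element of `C(z)`), a
block of `C(u) = q C(z) q⁻¹`.  `Ef.eq`: if `q z q⁻¹ = u` then `(g q) z (g q)⁻¹ = g u g⁻¹`, and
`cj (g q) (b z) = cj g (cj q (b z))`; if `z`, `u` are not conjugate both sides are `0`. -/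
def SbeStmt : Prop := ∀ (ℓ : ℕ) [Fact ℓ.Prime] (M : Ideal (integralClosure ℤ ℂ)) [M.IsMaximal],
  (ℓ : integralClosure ℤ ℂ) ∈ M → ∀ (G : Type) [Group G] [Finite G] (e : G → FF M)
  (V Z : Subgroup G) (γ : G → FF M) (b : G → G → FF M), Zd ℓ e V Z γ b →
  Ef M (fun (z : Z) (u : G) => sb b (z : G) u) ∧
  ∀ z ∈ Z, ∀ q : G, sb b z (q * z * q⁻¹) = cj q (b z)

/-- LNK: the inner product for the family `sb b`.

Proof.  For `z ∈ Z` let `S_z` be the sum of `gv M (Cu u) g (sb b z u) χ conj (ψ g)` over the `g ∈ G` whose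
`ℓ`-part `u` is conjugate to `z` (for the other `g` the term is `0`); the left side is
`|G|⁻¹ ∑_z c z S_z` (`fg`, `fu`: `u (u⁻¹ g) = g`).  For `g` with `ℓ`-part `u = q z q⁻¹` put
`g = q z s q⁻¹`, `s ∈ C(z)` regular: `gv M (Cu u) g (cj q (b z)) χ = gv M (Cu z) (z s) (b z) χ` and
`ψ(g) = ψ(z s)`; every `g` comes from exactly `|C(z)|` pairs `(q, s)`, `q ∈ G`.  So
`S_z = (|G|/|C(z)|) ∑_s gv M (Cu z) (z s) (b z) χ conj ψ(z s) = |G| mm` by BLO (`w = u = z`). -/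
def LnkStmt : Prop := ∀ (ℓ : ℕ) [Fact ℓ.Prime] (M : Ideal (integralClosure ℤ ℂ)) [M.IsMaximal],
  (ℓ : integralClosure ℤ ℂ) ∈ M → ∀ (G : Type) [Group G] [Finite G] (e : G → FF M)
  (V Z : Subgroup G) (γ : G → FF M) (b : G → G → FF M), Zd ℓ e V Z γ b →
  ∀ c : Z → ℂ, ∀ χ ∈ Irr G, ∀ ψ ∈ Irr G,
    (Nat.card G : ℂ)⁻¹ * ∑ᶠ g : G, fg M ℓ c (fun (z : Z) (u : G) => sb b (z : G) u) χ g *
      starRingEnd ℂ (ψ g) = ∑ᶠ z : Z, c z * mm M ℓ (Cu (z : G)) z (b z) χ ψ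

/-- LCA: averages over a central subgroup of an `ℓ`-group.

Proof.  The function `u ↦ fv i u χ` on `P₀` is in `ZI P₀` (FCZ, `Ip M P₀ i` follows from `Ip M P i`), `lam`
is an irreducible character of `P₀` and `κ|P₀ ∈ ZI P₀` (restriction), so the product is in `ZI P₀`
(`T5.ZimStmt`) and its average is an integer (inner product with the trivial character). -/
def LcaStmt : Prop := ∀ (M : Ideal (integralClosure ℤ ℂ)) [M.IsMaximal] (G : Type) [Group G]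
  [Finite G] (P P₀ : Subgroup G), P₀ ≤ P → ∀ i : G → ℂ, Ip M P i → ∀ χ ∈ Irr G,
  ∀ lam : P₀ →* ℂ, ∀ κ ∈ ZI P, ∀ k : P₀ → P, (∀ u, (k u : G) = u) →
    ∃ n : ℤ, (Nat.card P₀ : ℂ)⁻¹ * ∑ᶠ u : P₀, lam u * fv i (u : G) χ * κ (k u) = n

/-- LCS: the local case.

Proof.  Let `β z u = sb b z u`, `c z = cn V Z γ nu z`, `T = Tg V γ`.  `e` is a central idempotent and `i`
is primitive, so `e i = i` or `e i = 0` (`e i` is a `P`-invariant idempotent, `i (e i) = e i = (e i) i`).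
If `e i = 0` then for `u ∈ P` and `z ∈ Z` with `q z q⁻¹ = u`: `cj q (b z)` is under `rs (Cu u) e`
(`Lb.und`, conjugated), so `(rs i) (cj q (b z)) = (rs i) (rs e) (cj q (b z)) = rs (i e) (cj q (b z)) = 0`
and `fi i u = 0` (TVS (iii)).  Let `e i = i`, `g` from `Lo`, `Z' = conjS g Z`, `P₀ = P ∩ Z'`, central in
`P` (`P ≤ conjS g V`, `cen`).  For `u ∈ P`, `u ∉ Z'` all terms of `fi i u` are `0`.  Let `u ∈ P₀`,
`u₀ = g⁻¹ u g ∈ Z`, `β₀ = cj g (b u₀)`, `(rs i) β₀ = rs i`.  For `z ∈ Z` with `q z q⁻¹ = u`: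
`cj q (b z)` and `β₀` are blocks of `C(u)`; if they are different the term is `0`
(`(rs i) β₀ (cj q (b z)) = 0`); they are equal iff `cj (g⁻¹ q) (b z) = b u₀`, `(g⁻¹ q) z (g⁻¹ q)⁻¹ =
u₀`, iff `z = t u₀ t⁻¹` for some `t ∈ T` (`Zd.fus`, and ZCP (i): `cj t (b u₀) = b (t u₀ t⁻¹)`, then
`q t g⁻¹` maps `u` to `u`, and `cj q (b (t u₀ t⁻¹)) = cj (q t) (b u₀)`, `q t ∈ C(u) g`: equal to
`cj g (b u₀)`).  So `fi i u = (|V|/|Z|) (∑_z cz z nu z) tv M u (rs i) χ`, `z` over the `T`-orbit of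
`u₀`, and this sum is `∑_t nu(t u₀ t⁻¹)`, over the cosets `t (T ∩ C(Z))` in `T` (each `z` of the orbit
comes from `cz z = |T ∩ C(z) : T ∩ C(Z)|` cosets; ZCP).  Let `i^` be a lift of `i` to an idempotent which
commutes with `P` (`T8.LftStmt`, `C = ⊤`): `tv M u (rs i) χ = fv i^ u χ` (TVS (ii)).  For
`κ ∈ ZI P`: `|P|⁻¹ ∑_{u ∈ P} fi i u κ(u) = (|V| |P₀| / (|Z| |P|)) ∑_t (|P₀|⁻¹ ∑_{u ∈ P₀}
nu(t g⁻¹ u g t⁻¹) fv i^ u χ κ(u))`; the inner averages are integers (LCA; `u ↦ nu(t g⁻¹ u g t⁻¹)` is a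
homomorphism, `Zd.nrm`), and `|P : P₀| = |P Z' : Z'|` divides `|conjS g V : Z'| = |V|/|Z|` (`P Z'` is a
subgroup of `conjS g V`, `Z'` is central in it). -/
def LcsStmt : Prop := ∀ (ℓ : ℕ) [Fact ℓ.Prime] (M : Ideal (integralClosure ℤ ℂ)) [M.IsMaximal],
  (ℓ : integralClosure ℤ ℂ) ∈ M → ∀ (G : Type) [Group G] [Finite G] (e : G → FF M)
  (V Z : Subgroup G) (γ : G → FF M) (b : G → G → FF M), Zd ℓ e V Z γ b →
  Lo M ℓ e V Z b → ∀ nu : Z →* ℂ, ∀ χ ∈ Irr G,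
  ∀ P : Subgroup G, IsPGroup ℓ P → ∀ i : G → FF M, Pm P i → br P i ≠ 0 →
    Cf M P (fi M (cn V Z γ nu) (fun (z : Z) (u : G) => sb b (z : G) u) i χ)

/-- STR: the theorem of Broué and Puig for the central subgroup `Z`.

Proof.  Let `lam : Z → ℂ` be a homomorphism, `nu(z) = lam(z⁻¹)` (a homomorphism: `Z` is abelian),
`c = cn V Z γ nu`, with values in `RM M` (`|V|/|Z|` is an integer).  SBE, LCS, CHT: `Hc M ℓ c β χ`.
FRB and LNK: `∑_z c z mm(z) ∈ RM M`, and this is `|Z|⁻¹ ∑_z Az(z) lam(z⁻¹)`. -/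
def StrStmt : Prop := ∀ (ℓ : ℕ) [Fact ℓ.Prime] (M : Ideal (integralClosure ℤ ℂ)) [M.IsMaximal],
  (ℓ : integralClosure ℤ ℂ) ∈ M → ∀ (G : Type) [Group G] [Finite G] (e : G → FF M)
  (V Z : Subgroup G) (γ : G → FF M) (b : G → G → FF M), Zd ℓ e V Z γ b →
  Lo M ℓ e V Z b → Star M ℓ e V Z γ b

end Pool.Agent.PP.T10
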