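import Pool.Agent.AT10.Stmts2
import Pool.Agent.ATZ.Stmts2

/-!
# Squad AT10, part 3: Brauer pairs, primitive idempotents, strong closure of `Z(V) ^ (ℓ ^ p)`

`Cm P β`: `β` is a compatible function on the subgroups of the `ℓ`-group `P`: `β Q` is a block of
`C(Q)`, and `(Q, β Q)` is contained in `(S, β S)` as a Brauer pair for `Q ≤ S ≤ P`.  Complete proofs
in the docstrings; all rows are independent.  `br Q` is multiplicative on the `Q`-invariant elements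
(`H75.br_mulF`).  A conjugate: `cj g a`, `conjS g Q = g Q g⁻¹`.
-/

open scoped BigOperators

noncomputable section

namespace Pool.Agent.PP.T10

open Pool.Agent.Helper51_AWC Pool.Agent.Helper79_WRA Pool.Agent.PP Pool.Agent.PP.KF
open Pool.Agent.PP.K9 Pool.Agent.PP.K9.H97 Pool.Agent.PP.H75 Pool.Agent.PP.T3 Pool.Agent.PP.T2
open Pool.Agent.PP.T5 Pool.Agent.PP.TB
open Pool.Agent.PP.T8 (rs pw fv rd Ip Rv)

attribute [local instance] Ideal.Quotient.field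

section defs

variable {G : Type} [Group G]

/-- `β` is a compatible function on the subgroups of `P`: `β Q` is a block of `C(Q)`, and for
`Q ≤ S ≤ P` with `S ≤ N(Q)` it is invariant under `S` and `br_S(β Q)` is over `β S`. -/
structure Cm {F : Type} [Field F] (P : Subgroup G) (β : Subgroup G → G → F) : Prop where
  bx : ∀ Q ≤ P, Bx (Subgroup.centralizer (Q : Set G)) (β Q)
  st : ∀ Q S : Subgroup G, Q ≤ S → S ≤ P → S ≤ Subgroup.normalizer (Q : Set G) →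
    ∀ s ∈ S, cj s (β Q) = β Q
  br : ∀ Q S : Subgroup G, Q ≤ S → S ≤ P → S ≤ Subgroup.normalizer (Q : Set G) →
    mulF (br S (β Q)) (β S) = β S

end defs

/-! ## 6. Brauer pairs -/

/-- UNB: a primitive idempotent of `A ^ P` which does not vanish on `C(P)` defines a compatible
function.

Proof.  Let `B = i A ^ P i`; by IDL an element of `B` which is not nilpotent is invertible in `B`.
`br_Q(i) ≠ 0` for `Q ≤ P` (`br_P(i) = br_P(br_Q(i))`).  We show by descending induction on `Q` that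
there is exactly one block `c` of `C(Q)` with `c br_Q(i) ≠ 0`; then `c br_Q(i) = br_Q(i)` (the sum of all
blocks is `1`), and we put `β Q = c`.
(1) `Q = P`: let `c br_P(i) ≠ 0`.  `c` (on `G`) is `P`-invariant, `y = i c i ∈ B`,
`br_P(y) = c br_P(i)` is an idempotent `≠ 0`, so `y` is not nilpotent, `y z = i` for a `z ∈ B`, and
`br_P(i) = c br_P(i) br_P(z)`, so `c br_P(i) = br_P(i)`.
(2) `Q < P`: let `S₀ = P ∩ N(Q) > Q`.  Let `c` be a block of `C(Q)` with `c br_Q(i) ≠ 0`, `c'` the sum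
of the different `S₀`-conjugates of `c`, a central idempotent of `F C(Q)` invariant under `S₀`, and
`Y = c' br_Q(i)`, an idempotent `≠ 0` of `F C(Q)` invariant under `S₀`.  Claim A: `br_S(Y) ≠ 0` for
some `S` with `Q < S ≤ S₀`.  Otherwise `Y(g) ≠ 0` implies `S₀ ∩ C(g) = Q`, so
`Y = ∑_{v ∈ S₀/Q} cj v y`, `y` the restriction of `Y` to representatives of the `S₀`-orbits of these
`g`.  Let `t = ∑_{v ∈ P/Q} cj v y`, a `P`-invariant element.  For `g ∈ C(Q)` the number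
`y(v⁻¹ g v)` depends only on the orbit of `v Q` under left multiplication with `Q`; the orbits
which are not fixed points have length divisible by `ℓ`, and the fixed points are the `v Q`,
`v ∈ S₀`; so `br_Q(t) = Y`.  `z = i t i ∈ B`, `br_Q(z) = br_Q(i) Y br_Q(i) = Y` is an idempotent
`≠ 0`, so `z` is not nilpotent, `i = z w`, `w ∈ B`.  But `br_P(t) = |P : Q| y = 0` on `C(P)`, so
`br_P(i) = br_P(i) br_P(t) br_P(i w) = 0`, a contradiction.  Claim B: let `S` be as in A.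
`br_S(c') br_S(i) = br_S(Y) ≠ 0` and `br_S(i) = β_S br_S(i)`, so `br_S(c') β_S ≠ 0`, and
`br_S(c')` is a central idempotent of `F C(S)`, so `br_S(c') β_S = β_S`.  If `S < S₀` let
`S₁ = S₀ ∩ N(S) > S`: `br_(S₁)(c') br_(S₁)(β_S) = br_(S₁)(br_S(c') β_S) = br_(S₁)(β_S)` and
`br_(S₁)(β_S) β_(S₁) = β_(S₁)`, so `br_(S₁)(c') β_(S₁) = β_(S₁)`.  By iteration
`br_(S₀)(c') β_(S₀) = β_(S₀)`.  So the orbit of `c` is unique (for two of them
`β_(S₀) = br_(S₀)(c' c'') β_(S₀) = 0`), and it has one element: if the stabiliser `S'` of `c` in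
`S₀` is not `S₀` then `br_(S₀)(c') = |S₀ : S'| c = 0` on `C(S₀)`.
(3) Compatibility: `Q ≤ S ≤ P`, `S ≤ N(Q)`, `Q < S`: `S ≤ S₀` stabilises `β_Q`, and
`br_S(β_Q) br_S(i) = br_S(β_Q br_Q(i)) = br_S(i) ≠ 0`, so `br_S(β_Q) β_S ≠ 0`. -/
def UnbStmt : Prop := ∀ (ℓ : ℕ) [Fact ℓ.Prime] (F : Type) [Field F], GoodF ℓ F → ∀ (G : Type)
  [Group G] [Finite G] (P : Subgroup G), IsPGroup ℓ P → ∀ i : G → F, Pm P i → br P i ≠ 0 →
    ∃ β : Subgroup G → G → F, Cm P β ∧ ∀ Q ≤ P, mulF (br Q i) (β Q) = br Q i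

/-- PRX: existence of compatible functions.

Proof.  `b` is a `P`-invariant idempotent of `F G` (`C(P)` commutes with `P`), `b = ∑_a k a` (PDC).
`br_P(b) = b ≠ 0`, so `br_P(k a) ≠ 0` for some `a`, and `b (k a) = k a` (orthogonality), so
`b br_P(k a) = br_P(k a)`.  UNB for `k a`: `β P` and `b` are blocks of `C(P)` with
`b (β P) br_P(k a) = br_P(k a) ≠ 0`, so they are equal (`Bx.dich`). -/
def PrxStmt : Prop := ∀ (ℓ : ℕ) [Fact ℓ.Prime] (F : Type) [Field F], GoodF ℓ F → ∀ (G : Type)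
  [Group G] [Finite G] (P : Subgroup G), IsPGroup ℓ P → ∀ b : G → F,
  Bx (Subgroup.centralizer (P : Set G)) b → ∃ β : Subgroup G → G → F, Cm P β ∧ β P = b

/-- PRU: uniqueness of compatible functions.

Proof.  Descending induction on `Q`.  `Q < P`, `S = P ∩ N(Q) > Q`: `β S = β' S` by induction;
`br_S(β Q) β_S = β_S`, `br_S(β' Q) β_S = β_S`, so `br_S((β Q)(β' Q)) β_S = β_S ≠ 0` (`β Q`, `β' Q` are
`S`-invariant), `(β Q)(β' Q) ≠ 0`, `β Q = β' Q` (`Bx.dich`). -/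
def PruStmt : Prop := ∀ (ℓ : ℕ) [Fact ℓ.Prime] (F : Type) [Field F], GoodF ℓ F → ∀ (G : Type)
  [Group G] [Finite G] (P : Subgroup G), IsPGroup ℓ P → ∀ β β' : Subgroup G → G → F, Cm P β →
  Cm P β' → β P = β' P → ∀ Q ≤ P, β Q = β' Q

/-- PRM: every pair is contained in a conjugate of `(V, γ)`.

Proof.  Induction on `|V| - |P|`.  `P` is good for `e` (`br_P(e) b = b ≠ 0`), so `|P| ≤ |V|`.
(1) `|P| = |V|`: by `K9.FmgStmt` `P = conjS g₀ V`, and `br_P(e)` is a block of `N(P)` (conjugate of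
FMG for `V`).  `b` and `cj g₀ γ` are blocks of `C(P)` under it, so (`K9.OrbStmt`) `b = cj (n g₀) γ`
with `n ∈ N(P)`; `g = n g₀`, and PRX for `(P, b)`.
(2) `|P| < |V|`: let `f` be the block of `N(P)` with `f b = b` (`f` vanishes outside `C(P)`,
`T2.H32.supp_cent`, so it is a central idempotent of `F C(P)`).  `br_P(e) f = f`, as
`br_P(e) f b = b ≠ 0`.  `K9.DunStmt`: an `ℓ`-subgroup `R` of `N(P)` with `P < R` and `br_R(f) ≠ 0`.  By
`K9.OrbStmt` the blocks of `C(P)` under `f` are the `N(P)`-conjugates of `b`, so `f` is the sum of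
the different `cj n b`, `n ∈ N(P)`.  The sum over an `R`-orbit with more than one element is
annihilated by `br_R`, so for some `n ∈ N(P)` `b' = cj n b` is `R`-invariant and `br_R(b') ≠ 0`.
Replace `R` by `n⁻¹ R n`: `P < R ≤ N(P)`, `b` is `R`-invariant, `br_R(b) ≠ 0`.  Let `b₁` be a block of
`C(R)` with `br_R(b) b₁ = b₁`.  `br_R(e) b₁ = b₁` (`br_R(e) br_R(b) = br_R(br_P(e) b) = br_R(b)`).
Induction for `(R, b₁)`: `g`, `β` with `R ≤ conjS g V`, `β R = b₁`.  `β P` and `b` are `R`-invariant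
blocks of `C(P)` with `br_R(β P) b₁ = b₁ = br_R(b) b₁`, so `(β P) b ≠ 0`, `β P = b`. -/
def PrmStmt : Prop := ∀ (ℓ : ℕ) [Fact ℓ.Prime] (M : Ideal (integralClosure ℤ ℂ)) [M.IsMaximal],
  (ℓ : integralClosure ℤ ℂ) ∈ M → ∀ (G : Type) [Group G] [Finite G] (e : G → FF M)
  (V : Subgroup G) (γ : G → FF M), IsBlk e → Tp ℓ e V →
  Bx (Subgroup.centralizer (V : Set G)) γ → mulF (br V e) γ = γ → ∀ P : Subgroup G,
  IsPGroup ℓ P → ∀ b : G → FF M, Bx (Subgroup.centralizer (P : Set G)) b →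
  mulF (br P e) b = b → ∃ (g : G) (β : Subgroup G → G → FF M), Cm (conjS g V) β ∧
    P ≤ conjS g V ∧ β (conjS g V) = cj g γ ∧ β P = b

/-! ## 7. Strong closure -/

/-- IXP: powers and the index.

Proof.  Induction on `|A| / |H|`.  If `H = A`: clear.  Otherwise `H < N_A(H)`, so there is `H₁` with
`H < H₁ ≤ A`, `H` normal in `H₁` of index `ℓ` (a subgroup of order `ℓ` of `N_A(H)/H`).
`|A| ≤ ℓ ^ p |H|` implies `p > 0` and `|A| ≤ ℓ ^ (p-1) |H₁|`; `y ^ ℓ ^ (p-1) ∈ H₁` by induction, and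
`x ^ ℓ ∈ H` for `x ∈ H₁`. -/
def IxpStmt : Prop := ∀ (ℓ : ℕ) [Fact ℓ.Prime] (G : Type) [Group G] [Finite G]
  (A H : Subgroup G) (p : ℕ), IsPGroup ℓ A → H ≤ A → Nat.card A ≤ ℓ ^ p * Nat.card H →
  ∀ y ∈ A, y ^ ℓ ^ p ∈ H

/-- SCL: strong closure of `Z(V) ^ (ℓ ^ p)`.

Proof.  Let `β_u = β ⟨u⟩ = cj q b`, a block of `C(u)` (the centralisers of `{u}` and of `⟨u⟩` are
equal).  (1) `V' = conjS q V ≤ C(u)` (`z` is central in `V`), and `V'` is good for `β_u` (`V` is good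
for `b`, `Lb.gd`).  An `ℓ`-subgroup of `C(u)` good for `β_u` is good for `e` (`e` is over `β_u`:
conjugate `Lb.und`), so its order is at most `|V|`.  So `V'` is a defect group of `β_u` (in `C(u)`).
(2) `R = V ∩ C(u)` contains `u` and centralises it, so `br_R(β_u) β_R = β_R ≠ 0` (`Cm.br` for
`⟨u⟩ ≤ R ≤ V`): `R` is good for `β_u`, and by `K9.FmgStmt` for `C(u)` there is `c ∈ C(u)` with
`R ≤ conjS (c q) V`.  Replace `q` by `c q` (`(c q) z (c q)⁻¹ = u`, `cj c β_u = β_u`).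
(3) `Zc V ≤ R ≤ V' = conjS q V`.  IXP for `A = V'`, `H = Zc V` (`|V'| = |V|`):
`y ^ ℓ ^ p ∈ Zc V` for `y ∈ V'`.  `z = w ^ ℓ ^ p` with `w ∈ Zc V` (`T2.PwuStmt`: `Zc V` is abelian),
so `u = (q w q⁻¹) ^ ℓ ^ p ∈ Zc V`.  (4) So `R = V`, `V ≤ conjS q V`, and the orders are equal:
`q ∈ N(V)`.  (5) `br_V(β_u) γ = γ` (`Cm.br`, `⟨u⟩ ≤ V`, `u` central in `V`, `β V = γ`), and
`br_V(β_u) (cj q γ) = cj q (br_V(b) γ) = cj q γ`.  `br_V(β_u)` is a block of `N(V) ∩ C(u)`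
(`K9.FmgStmt` for `C(u)`), `C(V) ≤ C(u)`, so by `K9.OrbStmt` (`N = N(V) ∩ C(u)`, `X = C(V)`) there is
`n ∈ N(V) ∩ C(u)` with `cj n (cj q γ) = γ`.  `t = n q ∈ Tg V γ`, `t z t⁻¹ = n u n⁻¹ = u`. -/
def SclStmt : Prop := ∀ (ℓ : ℕ) [Fact ℓ.Prime] (M : Ideal (integralClosure ℤ ℂ)) [M.IsMaximal],
  (ℓ : integralClosure ℤ ℂ) ∈ M → ∀ (G : Type) [Group G] [Finite G] (e : G → FF M)
  (V : Subgroup G) (γ : G → FF M), IsBlk e → Tp ℓ e V →
  Bx (Subgroup.centralizer (V : Set G)) γ → mulF (br V e) γ = γ → ∀ p : ℕ,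
  Nat.card V ≤ ℓ ^ p * Nat.card (Zc V) → ∀ β : Subgroup G → G → FF M, Cm V β → β V = γ →
  ∀ z ∈ Uw (ℓ ^ p) (Zc V), ∀ b : G → FF M, Lb ℓ e V z b → mulF (br V b) γ = γ →
  ∀ u ∈ V, ∀ q : G, q * z * q⁻¹ = u → cj q b = β (Subgroup.zpowers u) →
    ∃ t ∈ Tg V γ, t * z * t⁻¹ = u

/-- ZLO: the data for `Z = Z(V) ^ (ℓ ^ p)` and the local property.

Proof.  `Z = Uw (ℓ ^ p) (Zc V) ≤ Zc V`.  For `z ∈ Z` let `b z` be a block of `C(z)` with
`br_V(b z) γ = γ` (the sum of all the blocks of `C(z)` is `1`, `br_V(1) = 1`, and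
`br_V(b) γ` is `γ` or `0`); it is unique (`br_V(b b') γ = γ` implies `b b' ≠ 0`), under `e`
(`br_V(e b) γ = br_V(e) γ = γ`), and `V` is good for it: `Lb`.  `nrm`: `t ∈ Tg V γ` normalises `V`, so
`Zc V` and `Z`.  Let `β₀` be a compatible function on `V` with `β₀ V = γ` (PRX).  (A) For `z ∈ Z`
`β₀ ⟨z⟩ = b z`: `Cm.br` for `⟨z⟩ ≤ V` and uniqueness (the centralisers of `{z}` and `⟨z⟩` are
equal).  `fus`: SCL for `z'`, `b z'`, `u = z`, `q = x` and (A).  `Lo`: let `i` be primitive in `A ^ P`,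
`e i = i`, `br_P(i) ≠ 0`.  UNB: `β'` on `P`.  `b_P = β' P` is under `br_P(e)` (`br_P(e) b_P br_P(i) =
br_P(i) ≠ 0`).  PRM: `g`, `β` on `conjS g V`, `β P = b_P`; PRU on `P` (`β` is compatible on `P`, too):
`β ⟨u⟩ = β' ⟨u⟩` for `u ∈ P`, and `(rs (Cu u) i) (β ⟨u⟩) = rs (Cu u) i` (`rs (Cu u) i = br ⟨u⟩ i`).
`Q ↦ cj g⁻¹ (β (conjS g Q))` is compatible on `V` with the value `γ` at `V`, so by PRU it is `β₀` on
the subgroups of `V`; in particular `β ⟨u⟩ = cj g (β₀ ⟨u₀⟩)`, `u₀ = g⁻¹ u g`.  (1) `u ∈ conjS g Z`: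
`β₀ ⟨u₀⟩ = b u₀` by (A).  (2) `u ∉ conjS g Z`, `z ∈ Z`, `q z q⁻¹ = u`: if
`(rs (Cu u) i) (cj q (b z)) ≠ 0` then `cj q (b z) = β ⟨u⟩` (`Bx.dich` for the blocks of `C(u)`), so
`cj (g⁻¹ q) (b z) = β₀ ⟨u₀⟩`, `(g⁻¹ q) z (g⁻¹ q)⁻¹ = u₀ ∈ V`, and SCL gives `t ∈ Tg V γ` with
`u₀ = t z t⁻¹ ∈ Z`, a contradiction. -/
def ZloStmt : Prop := ∀ (ℓ : ℕ) [Fact ℓ.Prime] (M : Ideal (integralClosure ℤ ℂ)) [M.IsMaximal],
  (ℓ : integralClosure ℤ ℂ) ∈ M → ∀ (G : Type) [Group G] [Finite G] (e : G → FF M)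
  (V : Subgroup G) (γ : G → FF M), IsBlk e → Tp ℓ e V →
  Bx (Subgroup.centralizer (V : Set G)) γ → mulF (br V e) γ = γ → ∀ p : ℕ,
  Nat.card V ≤ ℓ ^ p * Nat.card (Zc V) → ∃ b : G → G → FF M,
    Zd ℓ e V (Uw (ℓ ^ p) (Zc V)) γ b ∧ Lo M ℓ e V (Uw (ℓ ^ p) (Zc V)) b

/-- STF: the conclusion of the STAR block, the last hypothesis of `TB.BndStmt`.

Proof.  `V` is good for `e`, so there is a block `γ` of `C(V)` with `br_V(e) γ = γ` (a block under the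
central idempotent `br_V(e) ≠ 0` of `F C(V)`).  `TB.ClzStmt`: `|V| ≤ ℓ ^ p |Zc V|`.  ZLO, STR. -/
def StfStmt : Prop := ∀ (ℓ : ℕ) [Fact ℓ.Prime] (M : Ideal (integralClosure ℤ ℂ)) [M.IsMaximal],
  (ℓ : integralClosure ℤ ℂ) ∈ M → ∀ (G : Type) [Group G] [Finite G] (e : G → FF M)
  (V : Subgroup G) (r p : ℕ), IsBlk e → Tp ℓ e V → Cl ℓ r p V →
  ∃ (γ : G → FF M) (b : G → G → FF M), Zd ℓ e V (Uw (ℓ ^ p) (Zc V)) γ b ∧
    Star M ℓ e V (Uw (ℓ ^ p) (Zc V)) γ b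

end Pool.Agent.PP.T10
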